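import Mathlib

/-!
MP_4efad7_nt.  Let w be a weird number and P its largest prime factor.  If w has a weird
divisor v such that w / v is even, or divisible by P, or divisible by a prime q with
q σ(q ^ b) ≤ P, where q ^ b is the exact power of q dividing v (for instance a prime q not
dividing v), then w / P is weird.  Abundant, pseudoperfect (= semiperfect) and weird
are the notions of Mathlib.
-/

namespace Pool.Agent.Results.MP_4efad7_nt.CofactorPrime

open Finset

/-- multiples of pseudoperfect numbers are pseudoperfect -/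
lemma pseudo_mul {m n : ℕ} (h : Nat.Pseudoperfect m) (hd : m ∣ n) (hn : n ≠ 0) :
    Nat.Pseudoperfect n := by
  obtain ⟨k, rfl⟩ := hd
  obtain ⟨hm, s, hs, hsum⟩ := h
  have hk : 0 < k := Nat.pos_of_ne_zero (fun h0 => hn (by simp [h0]))
  refine ⟨Nat.mul_pos hm hk, s.image (fun x => x * k), ?_, ?_⟩
  · intro x hx
    obtain ⟨y, hy, rfl⟩ := mem_image.1 hx
    have h1 := Nat.mem_properDivisors.1 (hs hy)
    rw [Nat.mem_properDivisors]
    exact ⟨Nat.mul_dvd_mul_right h1.1 k, Nat.mul_lt_mul_of_pos_right h1.2 hk⟩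
  · rw [sum_image (fun a _ b _ h => Nat.eq_of_mul_eq_mul_right hk h), ← sum_mul, hsum]

/-- if z divides the weird number w and has a non-deficient divisor y, then z is weird -/
lemma weird_of {w z y : ℕ} (hw : Nat.Weird w) (hz : z ∣ w) (hyz : y ∣ z)
    (hy : 2 * y ≤ ∑ i ∈ y.divisors, i) : Nat.Weird z := by
  have hw0 : w ≠ 0 := hw.pos.ne'
  have hz0 : z ≠ 0 := fun h => hw0 (by rw [h] at hz; exact Nat.eq_zero_of_zero_dvd hz)
  have hy0 : y ≠ 0 := fun h => hz0 (by rw [h] at hyz; exact Nat.eq_zero_of_zero_dvd hyz)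
  have hyw : y ∣ w := hyz.trans hz
  refine ⟨?_, fun hp => hw.2 (pseudo_mul hp hz hw0)⟩
  rcases Nat.lt_or_ge (2 * y) (∑ i ∈ y.divisors, i) with h | h
  · exact Nat.Abundant.of_dvd (Nat.abundant_iff_sum_divisors.2 h) hyz hz0
  · exfalso
    have h2 : ∑ i ∈ y.divisors, i = 2 * y := le_antisymm h hy
    rw [Nat.sum_divisors_eq_sum_properDivisors_add_self] at h2
    have h3 : ∑ i ∈ y.properDivisors, i = y := by omega
    exact hw.2 (pseudo_mul ⟨Nat.pos_of_ne_zero hy0, y.properDivisors, subset_rfl, h3⟩ hyw hw0)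

/-- sigma (P u) is at most (P + 1) sigma u -/
lemma sigma_prime_mul_le {P u : ℕ} (hP : P.Prime) (hu : u ≠ 0) :
    ∑ i ∈ (P * u).divisors, i ≤ (P + 1) * ∑ i ∈ u.divisors, i := by
  have hsub : (P * u).divisors ⊆ u.divisors ∪ u.divisors.image (fun d => P * d) := by
    intro d hd
    rw [Nat.mem_divisors] at hd
    rw [mem_union, mem_image]
    by_cases h : P ∣ d
    · right
      obtain ⟨e, rfl⟩ := h
      exact ⟨e, Nat.mem_divisors.2 ⟨Nat.dvd_of_mul_dvd_mul_left hP.pos hd.1, hu⟩, rfl⟩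
    · left
      rw [Nat.mem_divisors]
      refine ⟨?_, hu⟩
      have hc : Nat.Coprime d P := ((Nat.Prime.coprime_iff_not_dvd hP).2 h).symm
      exact hc.dvd_of_dvd_mul_left hd.1
  calc ∑ i ∈ (P * u).divisors, i
      ≤ ∑ i ∈ u.divisors ∪ u.divisors.image (fun d => P * d), i :=
        sum_le_sum_of_subset hsub
    _ ≤ ∑ i ∈ u.divisors, i + ∑ i ∈ u.divisors.image (fun d => P * d), i := by
        rw [← sum_union_inter]; omega
    _ = ∑ i ∈ u.divisors, i + P * ∑ i ∈ u.divisors, i := by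
        rw [sum_image (fun a _ b _ h => Nat.eq_of_mul_eq_mul_left hP.pos h), ← mul_sum]
    _ = (P + 1) * ∑ i ∈ u.divisors, i := by ring

lemma sigma_prime_mul_eq {q u : ℕ} (hq : q.Prime) (h : ¬ q ∣ u) :
    ∑ i ∈ (q * u).divisors, i = (q + 1) * ∑ i ∈ u.divisors, i := by
  have hc : Nat.Coprime q u := (Nat.Prime.coprime_iff_not_dvd hq).2 h
  rw [hc.sum_divisors_mul, Nat.Prime.sum_divisors hq]

/-- the case of a prime q of the cofactor with q σ(q ^ b) ≤ P, where u = q ^ b t and q does not divide t -/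
lemma case_new {P q b t : ℕ} (hP : P.Prime) (hq : q.Prime) (ht : t ≠ 0) (hqt : ¬ q ∣ t)
    (hb : q * ∑ i ∈ (q ^ b).divisors, i ≤ P) (hab : Nat.Abundant (P * (q ^ b * t))) :
    2 * (q * (q ^ b * t)) ≤ ∑ i ∈ (q * (q ^ b * t)).divisors, i := by
  have hc : ∀ k : ℕ, Nat.Coprime (q ^ k) t := fun k =>
    Nat.Coprime.pow_left k ((Nat.Prime.coprime_iff_not_dvd hq).2 hqt)
  have hq0 : q ^ b * t ≠ 0 := Nat.mul_ne_zero (pow_ne_zero _ hq.ne_zero) ht
  have h1 : 2 * (P * (q ^ b * t)) < (P + 1) * ∑ i ∈ (q ^ b * t).divisors, i :=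
    (Nat.abundant_iff_sum_divisors.1 hab).trans_le (sigma_prime_mul_le hP hq0)
  have hS : ∑ i ∈ (q ^ (b + 1)).divisors, i = q * (∑ i ∈ (q ^ b).divisors, i) + 1 := by
    rw [Nat.sum_divisors_prime_pow hq, Nat.sum_divisors_prime_pow hq, sum_range_succ', mul_sum]
    simp only [pow_zero, pow_succ]
    congr 1
    exact sum_congr rfl fun i _ => by ring
  have h2 : q * (q ^ b * t) = q ^ (b + 1) * t := by ring
  rw [h2, (hc (b + 1)).sum_divisors_mul, hS]
  rw [(hc b).sum_divisors_mul] at h1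
  set S := ∑ i ∈ (q ^ b).divisors, i
  set s := ∑ i ∈ t.divisors, i
  by_contra hcon
  push Not at hcon
  have h3 : P * ((q * S + 1) * s) < P * (2 * (q ^ (b + 1) * t)) := Nat.mul_lt_mul_of_pos_left hcon hP.pos
  have h4 : q * (2 * (P * (q ^ b * t))) < q * ((P + 1) * (S * s)) := Nat.mul_lt_mul_of_pos_left h1 hq.pos
  have h5 : P * (2 * (q ^ (b + 1) * t)) = q * (2 * (P * (q ^ b * t))) := by ring
  have h6 : q * S * s ≤ P * s := Nat.mul_le_mul_right _ hb
  have h7 : P * ((q * S + 1) * s) < q * ((P + 1) * (S * s)) := by rw [h5] at h3; exact h3.trans h4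
  have h8 : P * ((q * S + 1) * s) = P * (q * S * s) + P * s := by ring
  have h9 : q * ((P + 1) * (S * s)) = P * (q * S * s) + q * S * s := by ring
  rw [h8, h9] at h7
  omega

lemma sigma_two_pow (k : ℕ) : ∑ i ∈ (2 ^ k).divisors, i + 1 = 2 ^ (k + 1) := by
  rw [Nat.sum_divisors_prime_pow Nat.prime_two]
  induction k with
  | zero => simp
  | succ n ih => rw [sum_range_succ]; rw [pow_succ 2 (n + 1)]; omega

/-- 2 ^ a * P with P an odd prime below 2 ^ (a + 1) is pseudoperfect -/
lemma pseudo_two_pow {a P : ℕ} (hP : P.Prime) (hP2 : P ≠ 2) (hlt : P < 2 ^ (a + 1)) :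
    Nat.Pseudoperfect (P * 2 ^ a) := by
  have hodd : ¬ 2 ∣ P := fun h => hP2 ((Nat.prime_dvd_prime_iff_eq Nat.prime_two hP).1 h).symm
  have hP3 : 2 < P := lt_of_le_of_ne hP.two_le (Ne.symm hP2)
  have hpos : 0 < P * 2 ^ a := Nat.mul_pos hP.pos (by positivity)
  refine ⟨hpos, (P.bitIndices.toFinset.image (fun i => 2 ^ i)) ∪
    ((range a).image (fun i => P * 2 ^ i)), ?_, ?_⟩
  · intro x hx
    rw [mem_union, mem_image, mem_image] at hx
    rw [Nat.mem_properDivisors]
    rcases hx with ⟨i, hi, rfl⟩ | ⟨i, hi, rfl⟩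
    · rw [List.mem_toFinset] at hi
      have h1 : 2 ^ i ≤ P := Nat.two_pow_le_of_mem_bitIndices hi
      have h2 : i < a + 1 := (Nat.pow_lt_pow_iff_right (by norm_num)).1 (h1.trans_lt hlt)
      have h3 : 2 ^ i ≤ 2 ^ a := Nat.pow_le_pow_right (by norm_num) (by omega)
      refine ⟨(pow_dvd_pow 2 (by omega)).mul_left P, ?_⟩
      have h4 : 0 < 2 ^ a := by positivity
      nlinarith
    · rw [mem_range] at hi
      refine ⟨Nat.mul_dvd_mul_left P (pow_dvd_pow 2 hi.le), ?_⟩
      exact Nat.mul_lt_mul_of_pos_left ((Nat.pow_lt_pow_iff_right (by norm_num)).2 hi) hP.pos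
  · rw [sum_union]
    · rw [sum_image (fun i _ j _ h => Nat.pow_right_injective (le_refl 2) h),
        sum_image (fun i _ j _ h => Nat.pow_right_injective (le_refl 2)
          (Nat.eq_of_mul_eq_mul_left hP.pos h)), ← mul_sum]
      have h1 : ∑ i ∈ P.bitIndices.toFinset, 2 ^ i = P := by simp
      have h2 : ∑ i ∈ range a, 2 ^ i + 1 = 2 ^ a := by
        induction a with
        | zero => simp
        | succ n ih =>
          clear hlt hpos
          rw [sum_range_succ, pow_succ]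
          have : ∀ n : ℕ, ∑ i ∈ range n, 2 ^ i + 1 = 2 ^ n := by
            intro n
            induction n with
            | zero => simp
            | succ m ihm => rw [sum_range_succ, pow_succ]; omega
          have := this n
          omega
      rw [h1, ← h2]
      ring
    · rw [disjoint_left]
      intro x hx hy
      obtain ⟨i, hi, rfl⟩ := mem_image.1 hx
      obtain ⟨j, hj, h⟩ := mem_image.1 hy
      have h1 : P ∣ 2 ^ i := ⟨2 ^ j, h.symm⟩
      exact hP2 ((Nat.prime_dvd_prime_iff_eq hP Nat.prime_two).1 (hP.dvd_of_dvd_pow h1))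

/-- the case in which v = P u is even and so is the cofactor -/
lemma case_two {P u : ℕ} (hP : P.Prime) (hP2 : P ≠ 2) (hu : u ≠ 0)
    (hmax : ∀ p : ℕ, p.Prime → p ∣ u → p ≤ P) (hw : Nat.Weird (P * u)) :
    2 * (2 * u) ≤ ∑ i ∈ (2 * u).divisors, i := by
  obtain ⟨a, t, ht, hut⟩ := Nat.exists_eq_two_pow_mul_odd hu
  have hcop : ∀ k : ℕ, Nat.Coprime (2 ^ k) t := fun k =>
    Nat.Coprime.pow_left k (Nat.coprime_two_left.2 ht)
  have ht0 : t ≠ 0 := fun h => by simp [h] at ht
  have h2u : 2 * u = 2 ^ (a + 1) * t := by rw [hut]; ring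
  set s := ∑ i ∈ t.divisors, i with hs
  have hsu : ∑ i ∈ u.divisors, i + s = 2 ^ (a + 1) * s := by
    rw [hut, (hcop a).sum_divisors_mul, ← sigma_two_pow a]; ring
  have hs2u : ∑ i ∈ (2 * u).divisors, i + s = 2 ^ (a + 1) * 2 * s := by
    rw [h2u, (hcop (a + 1)).sum_divisors_mul]
    have h := sigma_two_pow (a + 1)
    have h' : 2 ^ (a + 1) * 2 = ∑ i ∈ (2 ^ (a + 1)).divisors, i + 1 := by rw [h]; ring
    rw [h']; ring
  set m := 2 ^ (a + 1) with hm
  have hm2 : 2 ≤ m := by rw [hm, pow_succ]; have : 0 < 2 ^ a := by positivity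
                         omega
  have hab : 2 * (P * u) < (P + 1) * ∑ i ∈ u.divisors, i :=
    (Nat.abundant_iff_sum_divisors.1 hw.1).trans_le (sigma_prime_mul_le hP hu)
  by_contra hcon
  push Not at hcon
  by_cases ht1 : t = 1
  · -- u is a power of 2
    have hsone : s = 1 := by rw [hs, ht1]; simp
    have hu2 : 2 * u = m := by rw [h2u, ht1, mul_one]
    rw [hsone] at hsu
    have h5 : P < m := by
      by_contra h6
      push Not at h6
      have h7 : ∑ i ∈ u.divisors, i = m - 1 := by omega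
      rw [h7] at hab
      have h8 : 2 * (P * u) = P * m := by rw [← hu2]; ring
      rw [h8] at hab
      obtain ⟨r, hr⟩ : ∃ r, m = r + 1 := ⟨m - 1, by omega⟩
      rw [hr] at hab h6
      have h9 : r + 1 - 1 = r := rfl
      rw [h9] at hab
      nlinarith
    apply hw.2
    have h10 : u = 2 ^ a := by rw [hut, ht1, mul_one]
    rw [h10]
    exact pseudo_two_pow hP hP2 h5
  · -- t has a prime factor
    obtain ⟨p, hp, hpt⟩ := Nat.exists_prime_and_dvd ht1
    have hpP : p ≤ P := hmax p hp (by rw [hut]; exact hpt.mul_left _)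
    -- s * p >= t * (p + 1)
    obtain ⟨e, he⟩ := hpt
    have he0 : e ≠ 0 := fun h => ht0 (by rw [he, h, mul_zero])
    have hse : t + e ≤ s := by
      have hne : e ≠ t := by
        rw [he]
        intro h
        have := hp.two_le
        have h1 : 1 ≤ e := Nat.pos_of_ne_zero he0
        nlinarith
      have hsub : ({t, e} : Finset ℕ) ⊆ t.divisors := by
        intro x hx
        rw [mem_insert, mem_singleton] at hx
        rcases hx with rfl | rfl
        · exact Nat.mem_divisors_self _ ht0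
        · exact Nat.mem_divisors.2 ⟨⟨p, by rw [he]; ring⟩, ht0⟩
      have h1 : ∑ i ∈ ({t, e} : Finset ℕ), i ≤ s := sum_le_sum_of_subset hsub
      rwa [sum_pair hne.symm] at h1
    -- P * s >= (P + 1) * t
    have hPs : (P + 1) * t ≤ P * s := by
      have h1 : t ≤ P * e := by rw [he]; exact Nat.mul_le_mul_right _ hpP
      nlinarith
    have hlt1 : 2 * m * s < 2 * m * t + s := by
      have : 2 * (2 * u) = 2 * m * t := by rw [h2u]; ring
      rw [this] at hcon
      nlinarith
    have ht1' : 1 ≤ t := Nat.pos_of_ne_zero ht0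
    have hs1 : 1 ≤ s := le_trans ht1' (le_trans (Nat.le_add_right _ _) hse)
    -- P >= 2 m
    have hPm : 2 * m ≤ P := by
      by_contra h6
      push Not at h6
      -- (2m - 1) (P+1) t <= (2m-1) P s < 2 m t P
      obtain ⟨r, hr⟩ : ∃ r, 2 * m = r + 1 := ⟨2 * m - 1, by omega⟩
      have h7 : r * s < (r + 1) * t := by rw [hr] at hlt1; nlinarith
      have h8 : r * ((P + 1) * t) ≤ r * (P * s) := Nat.mul_le_mul_left _ hPs
      have h9 : P * (r * s) < P * ((r + 1) * t) := Nat.mul_lt_mul_of_pos_left h7 hP.pos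
      have h10 : r * ((P + 1) * t) < P * ((r + 1) * t) := by
        calc r * ((P + 1) * t) ≤ r * (P * s) := h8
          _ = P * (r * s) := by ring
          _ < P * ((r + 1) * t) := h9
      have e1 : r * ((P + 1) * t) = P * (r * t) + r * t := by ring
      have e2 : P * ((r + 1) * t) = P * (r * t) + P * t := by ring
      have h11 : r * t < P * t := by rw [e1, e2] at h10; exact Nat.lt_of_add_lt_add_left h10
      have h12 : r < P := lt_of_mul_lt_mul_right h11 (Nat.zero_le _)
      omega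
    -- abundance
    have h2m : 2 * (P * u) = m * (P * t) := by
      have : 2 * (P * u) = P * (2 * u) := by ring
      rw [this, h2u]; ring
    obtain ⟨r, hr⟩ : ∃ r, m = r + 1 := ⟨m - 1, by omega⟩
    have h13 : ∑ i ∈ u.divisors, i = r * s := by rw [hr] at hsu; nlinarith
    rw [h2m, h13, hr] at hab
    -- (r+1) P t < (P+1) r s ; (2r+1) s < 2 (r+1) t
    have h14 : (2 * r + 1) * s < 2 * (r + 1) * t := by rw [hr] at hlt1; nlinarith
    have h15 : (2 * r + 1) * ((r + 1) * (P * t)) < (2 * r + 1) * ((P + 1) * (r * s)) :=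
      Nat.mul_lt_mul_of_pos_left hab (by omega)
    have h16 : ((P + 1) * r) * ((2 * r + 1) * s) ≤ ((P + 1) * r) * (2 * (r + 1) * t) :=
      Nat.mul_le_mul_left _ h14.le
    have h17 : (r + 1) * t * ((2 * r + 1) * P) < (r + 1) * t * (2 * r * (P + 1)) := by
      calc (r + 1) * t * ((2 * r + 1) * P) = (2 * r + 1) * ((r + 1) * (P * t)) := by ring
        _ < (2 * r + 1) * ((P + 1) * (r * s)) := h15
        _ = ((P + 1) * r) * ((2 * r + 1) * s) := by ring
        _ ≤ ((P + 1) * r) * (2 * (r + 1) * t) := h16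
        _ = (r + 1) * t * (2 * r * (P + 1)) := by ring
    have h18 : (2 * r + 1) * P < 2 * r * (P + 1) := lt_of_mul_lt_mul_left h17 (Nat.zero_le _)
    have e3 : (2 * r + 1) * P = 2 * r * P + P := by ring
    have e4 : 2 * r * (P + 1) = 2 * r * P + 2 * r := by ring
    have h19 : P < 2 * r := by rw [e3, e4] at h18; exact Nat.lt_of_add_lt_add_left h18
    omega

/-- Let w be weird with largest prime factor P, and let v be a weird divisor of w.
If w / v is divisible by 2, by P, or by a prime q with q σ(q ^ b) ≤ P, where q ^ b is the exact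
power of q dividing v (b = 0 and the condition q ≤ P holds if q does not divide v), then
w / P is weird. -/
theorem result (w v P : ℕ) (hw : Nat.Weird w) (hv : Nat.Weird v) (hvw : v ∣ w)
    (hP : P.Prime) (hPw : P ∣ w) (hmax : ∀ p : ℕ, p.Prime → p ∣ w → p ≤ P)
    (hc : 2 ∣ w / v ∨ P ∣ w / v ∨ ∃ q : ℕ, q.Prime ∧ q ∣ w / v ∧
      (¬ q ∣ v ∨ ∃ b : ℕ, q ^ b ∣ v ∧ ¬ q ^ (b + 1) ∣ v ∧ q * ∑ d ∈ (q ^ b).divisors, d ≤ P)) :
    Nat.Weird (w / P) := by
  have hw0 : w ≠ 0 := hw.pos.ne'
  obtain ⟨k, hk⟩ := hvw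
  have hv0 : v ≠ 0 := hv.pos.ne'
  have hwv : w / v = k := by rw [hk]; exact Nat.mul_div_cancel_left k hv.pos
  rw [hwv] at hc
  have hzw : w / P ∣ w := Nat.div_dvd_of_dvd hPw
  -- a weird divisor of w / P
  have hPk : P ∣ k → Nat.Weird (w / P) := by
    rintro ⟨j, hj⟩
    have h1 : v ∣ w / P := by
      have : w / P = v * j := by
        rw [hk, hj]
        have : v * (P * j) = P * (v * j) := by ring
        rw [this]
        exact Nat.mul_div_cancel_left _ hP.pos
      rw [this]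
      exact Dvd.intro j rfl
    exact weird_of hw hzw h1 (Nat.abundant_iff_sum_divisors.1 hv.1).le
  by_cases hPk' : P ∣ k
  · exact hPk hPk'
  have hPv : P ∣ v := by
    rw [hk] at hPw
    exact (hP.dvd_mul.1 hPw).resolve_right hPk'
  obtain ⟨u, hu⟩ := hPv
  have hu0 : u ≠ 0 := fun h => hv0 (by rw [hu, h, mul_zero])
  have hdiv : ∀ q : ℕ, q ∣ k → q * u ∣ w / P := by
    rintro q ⟨j, hj⟩
    refine ⟨j, ?_⟩
    have : w = P * (q * u * j) := by rw [hk, hu, hj]; ring
    rw [this]
    exact Nat.mul_div_cancel_left _ hP.pos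
  have hpow : ∀ q : ℕ, q.Prime → q ∣ k → ∀ b : ℕ, q ^ b ∣ v → ¬ q ^ (b + 1) ∣ v →
      q * ∑ d ∈ (q ^ b).divisors, d ≤ P → Nat.Weird (w / P) := by
    intro q hq hqk b hb1 hb2 hb3
    have hqP : q ≠ P := fun h => hPk' (h ▸ hqk)
    have hcop : Nat.Coprime (q ^ b) P := Nat.Coprime.pow_left b ((Nat.coprime_primes hq hP).2 hqP)
    obtain ⟨t, ht⟩ : q ^ b ∣ u := hcop.dvd_of_dvd_mul_left (by rw [← hu]; exact hb1)
    have ht0 : t ≠ 0 := fun h => hu0 (by rw [ht, h, mul_zero])
    have hqt : ¬ q ∣ t := by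
      rintro ⟨r, hr⟩
      exact hb2 ⟨P * r, by rw [hu, ht, hr]; ring⟩
    have habu : Nat.Abundant (P * (q ^ b * t)) := by rw [← ht, ← hu]; exact hv.1
    have h1 := case_new hP hq ht0 hqt hb3 habu
    rw [← ht] at h1
    exact weird_of hw hzw (hdiv q hqk) h1
  rcases hc with h2 | h | ⟨q, hq, hqk, hqv | ⟨b, hb1, hb2, hb3⟩⟩
  · have hP2 : P ≠ 2 := fun h => hPk' (by rw [h]; exact h2)
    refine weird_of hw hzw (hdiv 2 h2) (case_two hP hP2 hu0 ?_ (hu ▸ hv))
    intro p hp hpu
    exact hmax p hp (by rw [hk, hu]; exact (hpu.mul_left P).mul_right k)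
  · exact absurd h hPk'
  · refine hpow q hq hqk 0 (by simp) (by simpa using hqv) ?_
    simpa using hmax q hq (by rw [hk]; exact hqk.mul_left v)
  · exact hpow q hq hqk b hb1 hb2 hb3

end Pool.Agent.Results.MP_4efad7_nt.CofactorPrime
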